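import Pool.Agent.Strip051.Box.C2
import Pool.Agent.Strip051.Box.S30
import Pool.Agent.Strip051.LB.Fc.F2

/-! # LINE tight chart ChB00V2_pm_101 -/

namespace Pool.Agent.Strip051.LB.ChB00V2_pm_101

open Pool.Agent.Strip051.Box Pool.Agent.Strip051.Box2

open Pool.Agent.Strip051.LB.Fc Pool.Agent.Strip051.LB.Fc.F2 Pool.Agent.Strip051.LB.Fn Pool.Agent.Strip051.LB.Fn.F2

/-- coordinates of a point of the box -/
def In (b : Bx) (E : Pt) (x1 x2 : ℝ) : Prop :=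
  (S : ℝ) * x1 = ((b.p1 : ℝ) - b.n1) + b.q1 * E.e1 ∧ (S : ℝ) * x2 = ((b.p2 : ℝ) - b.n2) + b.q2 * E.e2

variable {b : Bx} {E : Pt} {x1 x2 : ℝ}

def t0 (b : Bx) : TM := X1 b
noncomputable def v0 (x1 _x2 : ℝ) : ℝ := x1
theorem h0 (h : In b E x1 x2) : Enc S E (t0 b) (v0 x1 x2) := enc_X1 h.1

def t1 (b : Bx) : TM := X2 b
noncomputable def v1 (_x1 x2 : ℝ) : ℝ := x2
theorem h1 (h : In b E x1 x2) : Enc S E (t1 b) (v1 x1 x2) := enc_X2 h.2

def t2 (_b : Bx) : TM := tconst 1859775393 0 1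
noncomputable def v2 (_x1 _x2 : ℝ) : ℝ := Real.sqrt ((3 : ℕ) : ℝ)
theorem h2 (_h : In b E x1 x2) : Enc S E (t2 b) (v2 x1 x2) := enc_sqrtn E (by decide) (by decide)

def t3 (b : Bx) : TM := tscale 1 2 (t2 b)
noncomputable def v3 (x1 x2 : ℝ) : ℝ := ((1 : ℕ) : ℝ) / ((2 : ℕ) : ℝ) * v2 x1 x2
theorem h3 (h : In b E x1 x2) : Enc S E (t3 b) (v3 x1 x2) := enc_scale 1 (by norm_num) (h2 h)

def t4 (b : Bx) : TM := tsq S (t0 b)
noncomputable def v4 (x1 x2 : ℝ) : ℝ := (v0 x1 x2) ^ 2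
theorem h4 (h : In b E x1 x2) : Enc S E (t4 b) (v4 x1 x2) := enc_sq hS (h0 h)

def t5 (_b : Bx) : TM := tconst (Nat.mul 1 S) 0 0
noncomputable def v5 (_x1 _x2 : ℝ) : ℝ := ((1 : ℕ) : ℝ)
theorem h5 (_h : In b E x1 x2) : Enc S E (t5 b) (v5 x1 x2) := enc_nc E 1

def t6 (b : Bx) : TM := tsub (t5 b) (t4 b)
noncomputable def v6 (x1 x2 : ℝ) : ℝ := v5 x1 x2 - v4 x1 x2
theorem h6 (h : In b E x1 x2) : Enc S E (t6 b) (v6 x1 x2) := enc_sub (h5 h) (h4 h)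

def t7 (b : Bx) : TM := tsqrt S (t6 b)
noncomputable def v7 (x1 x2 : ℝ) : ℝ := Real.sqrt (v6 x1 x2)
theorem h7 (h : In b E x1 x2) : Enc S E (t7 b) (v7 x1 x2) := enc_sqrt hS (h6 h)

def t9 (_b : Bx) : TM := tconst (Nat.div (Nat.mul 1 S) 2) 0 1
noncomputable def v9 (_x1 _x2 : ℝ) : ℝ := ((1 : ℕ) : ℝ) / ((2 : ℕ) : ℝ)
theorem h9 (_h : In b E x1 x2) : Enc S E (t9 b) (v9 x1 x2) := enc_rat E 1 (by norm_num)

def t10 (b : Bx) : TM := tmul S (t7 b) (t3 b)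
noncomputable def v10 (x1 x2 : ℝ) : ℝ := v7 x1 x2 * v3 x1 x2
theorem h10 (h : In b E x1 x2) : Enc S E (t10 b) (v10 x1 x2) := enc_mul hS (h7 h) (h3 h)

def t11 (b : Bx) : TM := tneg (t10 b)
noncomputable def v11 (x1 x2 : ℝ) : ℝ := -(v10 x1 x2)
theorem h11 (h : In b E x1 x2) : Enc S E (t11 b) (v11 x1 x2) := enc_neg (h10 h)

def t12 (b : Bx) : TM := tscale 1 2 (t0 b)
noncomputable def v12 (x1 x2 : ℝ) : ℝ := ((1 : ℕ) : ℝ) / ((2 : ℕ) : ℝ) * v0 x1 x2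
theorem h12 (h : In b E x1 x2) : Enc S E (t12 b) (v12 x1 x2) := enc_scale 1 (by norm_num) (h0 h)

def t13 (b : Bx) : TM := tsub (t11 b) (t12 b)
noncomputable def v13 (x1 x2 : ℝ) : ℝ := v11 x1 x2 - v12 x1 x2
theorem h13 (h : In b E x1 x2) : Enc S E (t13 b) (v13 x1 x2) := enc_sub (h11 h) (h12 h)

def t14 (b : Bx) : TM := tmul S (t0 b) (t3 b)
noncomputable def v14 (x1 x2 : ℝ) : ℝ := v0 x1 x2 * v3 x1 x2
theorem h14 (h : In b E x1 x2) : Enc S E (t14 b) (v14 x1 x2) := enc_mul hS (h0 h) (h3 h)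

def t16 (b : Bx) : TM := tscale 1 2 (t7 b)
noncomputable def v16 (x1 x2 : ℝ) : ℝ := ((1 : ℕ) : ℝ) / ((2 : ℕ) : ℝ) * v7 x1 x2
theorem h16 (h : In b E x1 x2) : Enc S E (t16 b) (v16 x1 x2) := enc_scale 1 (by norm_num) (h7 h)

def t18 (b : Bx) : TM := tmul S (t13 b) (t2 b)
noncomputable def v18 (x1 x2 : ℝ) : ℝ := v13 x1 x2 * v2 x1 x2
theorem h18 (h : In b E x1 x2) : Enc S E (t18 b) (v18 x1 x2) := enc_mul hS (h13 h) (h2 h)

def t24 (b : Bx) : TM := tsub (t10 b) (t12 b)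
noncomputable def v24 (x1 x2 : ℝ) : ℝ := v10 x1 x2 - v12 x1 x2
theorem h24 (h : In b E x1 x2) : Enc S E (t24 b) (v24 x1 x2) := enc_sub (h10 h) (h12 h)

def t25 (b : Bx) : TM := tsub (t1 b) (t24 b)
noncomputable def v25 (x1 x2 : ℝ) : ℝ := v1 x1 x2 - v24 x1 x2
theorem h25 (h : In b E x1 x2) : Enc S E (t25 b) (v25 x1 x2) := enc_sub (h1 h) (h24 h)

def t26 (b : Bx) : TM := tsq S (t1 b)
noncomputable def v26 (x1 x2 : ℝ) : ℝ := (v1 x1 x2) ^ 2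
theorem h26 (h : In b E x1 x2) : Enc S E (t26 b) (v26 x1 x2) := enc_sq hS (h1 h)

def t27 (b : Bx) : TM := tsub (t5 b) (t26 b)
noncomputable def v27 (x1 x2 : ℝ) : ℝ := v5 x1 x2 - v26 x1 x2
theorem h27 (h : In b E x1 x2) : Enc S E (t27 b) (v27 x1 x2) := enc_sub (h5 h) (h26 h)

def t28 (b : Bx) : TM := tsqrt S (t27 b)
noncomputable def v28 (x1 x2 : ℝ) : ℝ := Real.sqrt (v27 x1 x2)
theorem h28 (h : In b E x1 x2) : Enc S E (t28 b) (v28 x1 x2) := enc_sqrt hS (h27 h)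

def t29 (b : Bx) : TM := tadd (t14 b) (t16 b)
noncomputable def v29 (x1 x2 : ℝ) : ℝ := v14 x1 x2 + v16 x1 x2
theorem h29 (h : In b E x1 x2) : Enc S E (t29 b) (v29 x1 x2) := enc_add (h14 h) (h16 h)

def t30 (b : Bx) : TM := tneg (t28 b)
noncomputable def v30 (x1 x2 : ℝ) : ℝ := -(v28 x1 x2)
theorem h30 (h : In b E x1 x2) : Enc S E (t30 b) (v30 x1 x2) := enc_neg (h28 h)

def t31 (b : Bx) : TM := tsub (t30 b) (t7 b)
noncomputable def v31 (x1 x2 : ℝ) : ℝ := v30 x1 x2 - v7 x1 x2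
theorem h31 (h : In b E x1 x2) : Enc S E (t31 b) (v31 x1 x2) := enc_sub (h30 h) (h7 h)

def t32 (b : Bx) : TM := tsub (t1 b) (t0 b)
noncomputable def v32 (x1 x2 : ℝ) : ℝ := v1 x1 x2 - v0 x1 x2
theorem h32 (h : In b E x1 x2) : Enc S E (t32 b) (v32 x1 x2) := enc_sub (h1 h) (h0 h)

def t33 (b : Bx) : TM := tnat 2 (t7 b)
noncomputable def v33 (x1 x2 : ℝ) : ℝ := ((2 : ℕ) : ℝ) * v7 x1 x2
theorem h33 (h : In b E x1 x2) : Enc S E (t33 b) (v33 x1 x2) := enc_nat 2 (h7 h)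

def t34 (b : Bx) : TM := tadd (t5 b) (t33 b)
noncomputable def v34 (x1 x2 : ℝ) : ℝ := v5 x1 x2 + v33 x1 x2
theorem h34 (h : In b E x1 x2) : Enc S E (t34 b) (v34 x1 x2) := enc_add (h5 h) (h33 h)

def t35 (b : Bx) : TM := tmul S (t2 b) (t0 b)
noncomputable def v35 (x1 x2 : ℝ) : ℝ := v2 x1 x2 * v0 x1 x2
theorem h35 (h : In b E x1 x2) : Enc S E (t35 b) (v35 x1 x2) := enc_mul hS (h2 h) (h0 h)

def t36 (b : Bx) : TM := tsub (t35 b) (t7 b)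
noncomputable def v36 (x1 x2 : ℝ) : ℝ := v35 x1 x2 - v7 x1 x2
theorem h36 (h : In b E x1 x2) : Enc S E (t36 b) (v36 x1 x2) := enc_sub (h35 h) (h7 h)

def t37 (b : Bx) : TM := tmul S (t34 b) (t36 b)
noncomputable def v37 (x1 x2 : ℝ) : ℝ := v34 x1 x2 * v36 x1 x2
theorem h37 (h : In b E x1 x2) : Enc S E (t37 b) (v37 x1 x2) := enc_mul hS (h34 h) (h36 h)

def t38 (b : Bx) : TM := tadd (t5 b) (t35 b)
noncomputable def v38 (x1 x2 : ℝ) : ℝ := v5 x1 x2 + v35 x1 x2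
theorem h38 (h : In b E x1 x2) : Enc S E (t38 b) (v38 x1 x2) := enc_add (h5 h) (h35 h)

def t39 (b : Bx) : TM := tsub (t38 b) (t7 b)
noncomputable def v39 (x1 x2 : ℝ) : ℝ := v38 x1 x2 - v7 x1 x2
theorem h39 (h : In b E x1 x2) : Enc S E (t39 b) (v39 x1 x2) := enc_sub (h38 h) (h7 h)

def t40 (b : Bx) : TM := tnat 2 (t39 b)
noncomputable def v40 (x1 x2 : ℝ) : ℝ := ((2 : ℕ) : ℝ) * v39 x1 x2
theorem h40 (h : In b E x1 x2) : Enc S E (t40 b) (v40 x1 x2) := enc_nat 2 (h39 h)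

def t41 (b : Bx) : TM := tinv S (t40 b)
noncomputable def v41 (x1 x2 : ℝ) : ℝ := (v40 x1 x2)⁻¹
theorem h41 (h : In b E x1 x2) : Enc S E (t41 b) (v41 x1 x2) := enc_inv hS (h40 h)

def t42 (b : Bx) : TM := tmul S (t37 b) (t41 b)
noncomputable def v42 (x1 x2 : ℝ) : ℝ := v37 x1 x2 * v41 x1 x2
theorem h42 (h : In b E x1 x2) : Enc S E (t42 b) (v42 x1 x2) := enc_mul hS (h37 h) (h41 h)

def t45 (b : Bx) : TM := tmul S (t2 b) (t1 b)
noncomputable def v45 (x1 x2 : ℝ) : ℝ := v2 x1 x2 * v1 x1 x2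
theorem h45 (h : In b E x1 x2) : Enc S E (t45 b) (v45 x1 x2) := enc_mul hS (h2 h) (h1 h)

def t46 (b : Bx) : TM := tsub (t45 b) (t28 b)
noncomputable def v46 (x1 x2 : ℝ) : ℝ := v45 x1 x2 - v28 x1 x2
theorem h46 (h : In b E x1 x2) : Enc S E (t46 b) (v46 x1 x2) := enc_sub (h45 h) (h28 h)

def t48 (b : Bx) : TM := tadd (t5 b) (t45 b)
noncomputable def v48 (x1 x2 : ℝ) : ℝ := v5 x1 x2 + v45 x1 x2
theorem h48 (h : In b E x1 x2) : Enc S E (t48 b) (v48 x1 x2) := enc_add (h5 h) (h45 h)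

def t49 (b : Bx) : TM := tsub (t48 b) (t28 b)
noncomputable def v49 (x1 x2 : ℝ) : ℝ := v48 x1 x2 - v28 x1 x2
theorem h49 (h : In b E x1 x2) : Enc S E (t49 b) (v49 x1 x2) := enc_sub (h48 h) (h28 h)

def t50 (b : Bx) : TM := tnat 2 (t49 b)
noncomputable def v50 (x1 x2 : ℝ) : ℝ := ((2 : ℕ) : ℝ) * v49 x1 x2
theorem h50 (h : In b E x1 x2) : Enc S E (t50 b) (v50 x1 x2) := enc_nat 2 (h49 h)

def t51 (b : Bx) : TM := tinv S (t50 b)
noncomputable def v51 (x1 x2 : ℝ) : ℝ := (v50 x1 x2)⁻¹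
theorem h51 (h : In b E x1 x2) : Enc S E (t51 b) (v51 x1 x2) := enc_inv hS (h50 h)

def t54 (b : Bx) : TM := tsq S (t31 b)
noncomputable def v54 (x1 x2 : ℝ) : ℝ := (v31 x1 x2) ^ 2
theorem h54 (h : In b E x1 x2) : Enc S E (t54 b) (v54 x1 x2) := enc_sq hS (h31 h)

def t55 (_b : Bx) : TM := tconst (Nat.mul 3 S) 0 0
noncomputable def v55 (_x1 _x2 : ℝ) : ℝ := ((3 : ℕ) : ℝ)
theorem h55 (_h : In b E x1 x2) : Enc S E (t55 b) (v55 x1 x2) := enc_nc E 3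

def t56 (b : Bx) : TM := tsub (t55 b) (t54 b)
noncomputable def v56 (x1 x2 : ℝ) : ℝ := v55 x1 x2 - v54 x1 x2
theorem h56 (h : In b E x1 x2) : Enc S E (t56 b) (v56 x1 x2) := enc_sub (h55 h) (h54 h)

def t57 (b : Bx) : TM := tsq S (t32 b)
noncomputable def v57 (x1 x2 : ℝ) : ℝ := (v32 x1 x2) ^ 2
theorem h57 (h : In b E x1 x2) : Enc S E (t57 b) (v57 x1 x2) := enc_sq hS (h32 h)

def t61 (b : Bx) : TM := tadd (t1 b) (t24 b)
noncomputable def v61 (x1 x2 : ℝ) : ℝ := v1 x1 x2 + v24 x1 x2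
theorem h61 (h : In b E x1 x2) : Enc S E (t61 b) (v61 x1 x2) := enc_add (h1 h) (h24 h)

def t64 (b : Bx) : TM := tadd (t28 b) (t29 b)
noncomputable def v64 (x1 x2 : ℝ) : ℝ := v28 x1 x2 + v29 x1 x2
theorem h64 (h : In b E x1 x2) : Enc S E (t64 b) (v64 x1 x2) := enc_add (h28 h) (h29 h)

def t65 (b : Bx) : TM := tinv S (t64 b)
noncomputable def v65 (x1 x2 : ℝ) : ℝ := (v64 x1 x2)⁻¹
theorem h65 (h : In b E x1 x2) : Enc S E (t65 b) (v65 x1 x2) := enc_inv hS (h64 h)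

def t66 (b : Bx) : TM := tmul S (t61 b) (t65 b)
noncomputable def v66 (x1 x2 : ℝ) : ℝ := v61 x1 x2 * v65 x1 x2
theorem h66 (h : In b E x1 x2) : Enc S E (t66 b) (v66 x1 x2) := enc_mul hS (h61 h) (h65 h)

def t68 (b : Bx) : TM := tneg (t29 b)
noncomputable def v68 (x1 x2 : ℝ) : ℝ := -(v29 x1 x2)
theorem h68 (h : In b E x1 x2) : Enc S E (t68 b) (v68 x1 x2) := enc_neg (h29 h)

def t69 (b : Bx) : TM := tsub (t68 b) (t7 b)
noncomputable def v69 (x1 x2 : ℝ) : ℝ := v68 x1 x2 - v7 x1 x2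
theorem h69 (h : In b E x1 x2) : Enc S E (t69 b) (v69 x1 x2) := enc_sub (h68 h) (h7 h)

def t71 (b : Bx) : TM := tadd (t31 b) (t69 b)
noncomputable def v71 (x1 x2 : ℝ) : ℝ := v31 x1 x2 + v69 x1 x2
theorem h71 (h : In b E x1 x2) : Enc S E (t71 b) (v71 x1 x2) := enc_add (h31 h) (h69 h)

def t72 (b : Bx) : TM := tmul S (t66 b) (t71 b)
noncomputable def v72 (x1 x2 : ℝ) : ℝ := v66 x1 x2 * v71 x1 x2
theorem h72 (h : In b E x1 x2) : Enc S E (t72 b) (v72 x1 x2) := enc_mul hS (h66 h) (h71 h)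

def t74 (b : Bx) : TM := tneg (t72 b)
noncomputable def v74 (x1 x2 : ℝ) : ℝ := -(v72 x1 x2)
theorem h74 (h : In b E x1 x2) : Enc S E (t74 b) (v74 x1 x2) := enc_neg (h72 h)

def t75 (b : Bx) : TM := tsub (t24 b) (t0 b)
noncomputable def v75 (x1 x2 : ℝ) : ℝ := v24 x1 x2 - v0 x1 x2
theorem h75 (h : In b E x1 x2) : Enc S E (t75 b) (v75 x1 x2) := enc_sub (h24 h) (h0 h)

def t76 (b : Bx) : TM := tsq S (t75 b)
noncomputable def v76 (x1 x2 : ℝ) : ℝ := (v75 x1 x2) ^ 2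
theorem h76 (h : In b E x1 x2) : Enc S E (t76 b) (v76 x1 x2) := enc_sq hS (h75 h)

def t77 (b : Bx) : TM := tadd (t32 b) (t75 b)
noncomputable def v77 (x1 x2 : ℝ) : ℝ := v32 x1 x2 + v75 x1 x2
theorem h77 (h : In b E x1 x2) : Enc S E (t77 b) (v77 x1 x2) := enc_add (h32 h) (h75 h)

def t79 (b : Bx) : TM := tsub (t74 b) (t77 b)
noncomputable def v79 (x1 x2 : ℝ) : ℝ := v74 x1 x2 - v77 x1 x2
theorem h79 (h : In b E x1 x2) : Enc S E (t79 b) (v79 x1 x2) := enc_sub (h74 h) (h77 h)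

def t80 (b : Bx) : TM := tadd (t7 b) (t28 b)
noncomputable def v80 (x1 x2 : ℝ) : ℝ := v7 x1 x2 + v28 x1 x2
theorem h80 (h : In b E x1 x2) : Enc S E (t80 b) (v80 x1 x2) := enc_add (h7 h) (h28 h)

def t81 (b : Bx) : TM := tsub (t55 b) (t57 b)
noncomputable def v81 (x1 x2 : ℝ) : ℝ := v55 x1 x2 - v57 x1 x2
theorem h81 (h : In b E x1 x2) : Enc S E (t81 b) (v81 x1 x2) := enc_sub (h55 h) (h57 h)

def t82 (b : Bx) : TM := tsqrt S (t81 b)
noncomputable def v82 (x1 x2 : ℝ) : ℝ := Real.sqrt (v81 x1 x2)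
theorem h82 (h : In b E x1 x2) : Enc S E (t82 b) (v82 x1 x2) := enc_sqrt hS (h81 h)

def t84 (_b : Bx) : TM := tconst (Nat.div (Nat.mul 3 S) 2) 0 1
noncomputable def v84 (_x1 _x2 : ℝ) : ℝ := ((3 : ℕ) : ℝ) / ((2 : ℕ) : ℝ)
theorem h84 (_h : In b E x1 x2) : Enc S E (t84 b) (v84 x1 x2) := enc_rat E 3 (by norm_num)

def t85 (b : Bx) : TM := tadd (t82 b) (t84 b)
noncomputable def v85 (x1 x2 : ℝ) : ℝ := v82 x1 x2 + v84 x1 x2
theorem h85 (h : In b E x1 x2) : Enc S E (t85 b) (v85 x1 x2) := enc_add (h82 h) (h84 h)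

def t87 (b : Bx) : TM := tsub (t3 b) (t32 b)
noncomputable def v87 (x1 x2 : ℝ) : ℝ := v3 x1 x2 - v32 x1 x2
theorem h87 (h : In b E x1 x2) : Enc S E (t87 b) (v87 x1 x2) := enc_sub (h3 h) (h32 h)

def t88 (b : Bx) : TM := tadd (t3 b) (t32 b)
noncomputable def v88 (x1 x2 : ℝ) : ℝ := v3 x1 x2 + v32 x1 x2
theorem h88 (h : In b E x1 x2) : Enc S E (t88 b) (v88 x1 x2) := enc_add (h3 h) (h32 h)

def t89 (b : Bx) : TM := tmul S (t87 b) (t88 b)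
noncomputable def v89 (x1 x2 : ℝ) : ℝ := v87 x1 x2 * v88 x1 x2
theorem h89 (h : In b E x1 x2) : Enc S E (t89 b) (v89 x1 x2) := enc_mul hS (h87 h) (h88 h)

def t90 (b : Bx) : TM := tinv S (t89 b)
noncomputable def v90 (x1 x2 : ℝ) : ℝ := (v89 x1 x2)⁻¹
theorem h90 (h : In b E x1 x2) : Enc S E (t90 b) (v90 x1 x2) := enc_inv hS (h89 h)

def t95 (b : Bx) : TM := tsub (t82 b) (t18 b)
noncomputable def v95 (x1 x2 : ℝ) : ℝ := v82 x1 x2 - v18 x1 x2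
theorem h95 (h : In b E x1 x2) : Enc S E (t95 b) (v95 x1 x2) := enc_sub (h82 h) (h18 h)

def t96 (b : Bx) : TM := tinv S (t95 b)
noncomputable def v96 (x1 x2 : ℝ) : ℝ := (v95 x1 x2)⁻¹
theorem h96 (h : In b E x1 x2) : Enc S E (t96 b) (v96 x1 x2) := enc_inv hS (h95 h)

def t97 (b : Bx) : TM := tmul S (t77 b) (t96 b)
noncomputable def v97 (x1 x2 : ℝ) : ℝ := v77 x1 x2 * v96 x1 x2
theorem h97 (h : In b E x1 x2) : Enc S E (t97 b) (v97 x1 x2) := enc_mul hS (h77 h) (h96 h)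

def t99 (b : Bx) : TM := tsub (t84 b) (t18 b)
noncomputable def v99 (x1 x2 : ℝ) : ℝ := v84 x1 x2 - v18 x1 x2
theorem h99 (h : In b E x1 x2) : Enc S E (t99 b) (v99 x1 x2) := enc_sub (h84 h) (h18 h)

def t100 (b : Bx) : TM := tmul S (t76 b) (t99 b)
noncomputable def v100 (x1 x2 : ℝ) : ℝ := v76 x1 x2 * v99 x1 x2
theorem h100 (h : In b E x1 x2) : Enc S E (t100 b) (v100 x1 x2) := enc_mul hS (h76 h) (h99 h)

def t101 (b : Bx) : TM := tmul S (t77 b) (t85 b)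
noncomputable def v101 (x1 x2 : ℝ) : ℝ := v77 x1 x2 * v85 x1 x2
theorem h101 (h : In b E x1 x2) : Enc S E (t101 b) (v101 x1 x2) := enc_mul hS (h77 h) (h85 h)

def t102 (b : Bx) : TM := tmul S (t76 b) (t97 b)
noncomputable def v102 (x1 x2 : ℝ) : ℝ := v76 x1 x2 * v97 x1 x2
theorem h102 (h : In b E x1 x2) : Enc S E (t102 b) (v102 x1 x2) := enc_mul hS (h76 h) (h97 h)

def t104 (b : Bx) : TM := tsub (t101 b) (t102 b)
noncomputable def v104 (x1 x2 : ℝ) : ℝ := v101 x1 x2 - v102 x1 x2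
theorem h104 (h : In b E x1 x2) : Enc S E (t104 b) (v104 x1 x2) := enc_sub (h101 h) (h102 h)

def t105 (b : Bx) : TM := tsub (t3 b) (t75 b)
noncomputable def v105 (x1 x2 : ℝ) : ℝ := v3 x1 x2 - v75 x1 x2
theorem h105 (h : In b E x1 x2) : Enc S E (t105 b) (v105 x1 x2) := enc_sub (h3 h) (h75 h)

def t107 (b : Bx) : TM := tadd (t3 b) (t75 b)
noncomputable def v107 (x1 x2 : ℝ) : ℝ := v3 x1 x2 + v75 x1 x2
theorem h107 (h : In b E x1 x2) : Enc S E (t107 b) (v107 x1 x2) := enc_add (h3 h) (h75 h)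

def t108 (b : Bx) : TM := tmul S (t105 b) (t107 b)
noncomputable def v108 (x1 x2 : ℝ) : ℝ := v105 x1 x2 * v107 x1 x2
theorem h108 (h : In b E x1 x2) : Enc S E (t108 b) (v108 x1 x2) := enc_mul hS (h105 h) (h107 h)

def t110 (b : Bx) : TM := tsub (t105 b) (t88 b)
noncomputable def v110 (x1 x2 : ℝ) : ℝ := v105 x1 x2 - v88 x1 x2
theorem h110 (h : In b E x1 x2) : Enc S E (t110 b) (v110 x1 x2) := enc_sub (h105 h) (h88 h)

def t111 (b : Bx) : TM := tinv S (t108 b)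
noncomputable def v111 (x1 x2 : ℝ) : ℝ := (v108 x1 x2)⁻¹
theorem h111 (h : In b E x1 x2) : Enc S E (t111 b) (v111 x1 x2) := enc_inv hS (h108 h)

def t112 (b : Bx) : TM := tmul S (t90 b) (t111 b)
noncomputable def v112 (x1 x2 : ℝ) : ℝ := v90 x1 x2 * v111 x1 x2
theorem h112 (h : In b E x1 x2) : Enc S E (t112 b) (v112 x1 x2) := enc_mul hS (h90 h) (h111 h)

def t113 (b : Bx) : TM := tmul S (t110 b) (t112 b)
noncomputable def v113 (x1 x2 : ℝ) : ℝ := v110 x1 x2 * v112 x1 x2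
theorem h113 (h : In b E x1 x2) : Enc S E (t113 b) (v113 x1 x2) := enc_mul hS (h110 h) (h112 h)

def t116 (b : Bx) : TM := tmul S (t104 b) (t90 b)
noncomputable def v116 (x1 x2 : ℝ) : ℝ := v104 x1 x2 * v90 x1 x2
theorem h116 (h : In b E x1 x2) : Enc S E (t116 b) (v116 x1 x2) := enc_mul hS (h104 h) (h90 h)

def t117 (b : Bx) : TM := tmul S (t100 b) (t113 b)
noncomputable def v117 (x1 x2 : ℝ) : ℝ := v100 x1 x2 * v113 x1 x2
theorem h117 (h : In b E x1 x2) : Enc S E (t117 b) (v117 x1 x2) := enc_mul hS (h100 h) (h113 h)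

def t121 (b : Bx) : TM := tsub (t117 b) (t116 b)
noncomputable def v121 (x1 x2 : ℝ) : ℝ := v117 x1 x2 - v116 x1 x2
theorem h121 (h : In b E x1 x2) : Enc S E (t121 b) (v121 x1 x2) := enc_sub (h117 h) (h116 h)

def t122 (b : Bx) : TM := kyq0_t (t80 b) (t32 b)
noncomputable def v122 (x1 x2 : ℝ) : ℝ := kyq0_v (v80 x1 x2) (v32 x1 x2)
theorem h122 (h : In b E x1 x2) : Enc S E (t122 b) (v122 x1 x2) := kyq0_enc (h80 h) (h32 h)

def t123 (b : Bx) : TM := tadd (t80 b) (t82 b)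
noncomputable def v123 (x1 x2 : ℝ) : ℝ := v80 x1 x2 + v82 x1 x2
theorem h123 (h : In b E x1 x2) : Enc S E (t123 b) (v123 x1 x2) := enc_add (h80 h) (h82 h)

def t124 (b : Bx) : TM := f1m_t (t32 b)
noncomputable def v124 (x1 x2 : ℝ) : ℝ := f1m_v (v32 x1 x2)
theorem h124 (h : In b E x1 x2) : Enc S E (t124 b) (v124 x1 x2) := f1m_enc (h32 h)

def t125 (b : Bx) : TM := tsub (t80 b) (t124 b)
noncomputable def v125 (x1 x2 : ℝ) : ℝ := v80 x1 x2 - v124 x1 x2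
theorem h125 (h : In b E x1 x2) : Enc S E (t125 b) (v125 x1 x2) := enc_sub (h80 h) (h124 h)

def t130 (b : Bx) : TM := tmul S (t79 b) (t122 b)
noncomputable def v130 (x1 x2 : ℝ) : ℝ := v79 x1 x2 * v122 x1 x2
theorem h130 (h : In b E x1 x2) : Enc S E (t130 b) (v130 x1 x2) := enc_mul hS (h79 h) (h122 h)

def t131 (b : Bx) : TM := tinv S (t123 b)
noncomputable def v131 (x1 x2 : ℝ) : ℝ := (v123 x1 x2)⁻¹
theorem h131 (h : In b E x1 x2) : Enc S E (t131 b) (v131 x1 x2) := enc_inv hS (h123 h)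

def t132 (b : Bx) : TM := tmul S (t130 b) (t131 b)
noncomputable def v132 (x1 x2 : ℝ) : ℝ := v130 x1 x2 * v131 x1 x2
theorem h132 (h : In b E x1 x2) : Enc S E (t132 b) (v132 x1 x2) := enc_mul hS (h130 h) (h131 h)

def t134 (b : Bx) : TM := tsub (t132 b) (t121 b)
noncomputable def v134 (x1 x2 : ℝ) : ℝ := v132 x1 x2 - v121 x1 x2
theorem h134 (h : In b E x1 x2) : Enc S E (t134 b) (v134 x1 x2) := enc_sub (h132 h) (h121 h)

def t135 (b : Bx) : TM := tmul S (t7 b) (t1 b)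
noncomputable def v135 (x1 x2 : ℝ) : ℝ := v7 x1 x2 * v1 x1 x2
theorem h135 (h : In b E x1 x2) : Enc S E (t135 b) (v135 x1 x2) := enc_mul hS (h7 h) (h1 h)

def t136 (b : Bx) : TM := tmul S (t28 b) (t0 b)
noncomputable def v136 (x1 x2 : ℝ) : ℝ := v28 x1 x2 * v0 x1 x2
theorem h136 (h : In b E x1 x2) : Enc S E (t136 b) (v136 x1 x2) := enc_mul hS (h28 h) (h0 h)

def t138 (b : Bx) : TM := tadd (t135 b) (t136 b)
noncomputable def v138 (x1 x2 : ℝ) : ℝ := v135 x1 x2 + v136 x1 x2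
theorem h138 (h : In b E x1 x2) : Enc S E (t138 b) (v138 x1 x2) := enc_add (h135 h) (h136 h)

def t139 (b : Bx) : TM := tinv S (t2 b)
noncomputable def v139 (x1 x2 : ℝ) : ℝ := (v2 x1 x2)⁻¹
theorem h139 (h : In b E x1 x2) : Enc S E (t139 b) (v139 x1 x2) := enc_inv hS (h2 h)

def t140 (b : Bx) : TM := tmul S (t138 b) (t139 b)
noncomputable def v140 (x1 x2 : ℝ) : ℝ := v138 x1 x2 * v139 x1 x2
theorem h140 (h : In b E x1 x2) : Enc S E (t140 b) (v140 x1 x2) := enc_mul hS (h138 h) (h139 h)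

def t141 (b : Bx) : TM := tsub (t140 b) (t9 b)
noncomputable def v141 (x1 x2 : ℝ) : ℝ := v140 x1 x2 - v9 x1 x2
theorem h141 (h : In b E x1 x2) : Enc S E (t141 b) (v141 x1 x2) := enc_sub (h140 h) (h9 h)

def t144 (b : Bx) : TM := tmul S (t66 b) (t0 b)
noncomputable def v144 (x1 x2 : ℝ) : ℝ := v66 x1 x2 * v0 x1 x2
theorem h144 (h : In b E x1 x2) : Enc S E (t144 b) (v144 x1 x2) := enc_mul hS (h66 h) (h0 h)

def t147 (b : Bx) : TM := tsub (t7 b) (t144 b)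
noncomputable def v147 (x1 x2 : ℝ) : ℝ := v7 x1 x2 - v144 x1 x2
theorem h147 (h : In b E x1 x2) : Enc S E (t147 b) (v147 x1 x2) := enc_sub (h7 h) (h144 h)

def t149 (b : Bx) : TM := tmul S (t147 b) (t139 b)
noncomputable def v149 (x1 x2 : ℝ) : ℝ := v147 x1 x2 * v139 x1 x2
theorem h149 (h : In b E x1 x2) : Enc S E (t149 b) (v149 x1 x2) := enc_mul hS (h147 h) (h139 h)

def t151 (b : Bx) : TM := tsub (t0 b) (t3 b)
noncomputable def v151 (x1 x2 : ℝ) : ℝ := v0 x1 x2 - v3 x1 x2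
theorem h151 (h : In b E x1 x2) : Enc S E (t151 b) (v151 x1 x2) := enc_sub (h0 h) (h3 h)

def t152 (b : Bx) : TM := tsub (t1 b) (t3 b)
noncomputable def v152 (x1 x2 : ℝ) : ℝ := v1 x1 x2 - v3 x1 x2
theorem h152 (h : In b E x1 x2) : Enc S E (t152 b) (v152 x1 x2) := enc_sub (h1 h) (h3 h)

def t153 (b : Bx) : TM := tnat 2 (t29 b)
noncomputable def v153 (x1 x2 : ℝ) : ℝ := ((2 : ℕ) : ℝ) * v29 x1 x2
theorem h153 (h : In b E x1 x2) : Enc S E (t153 b) (v153 x1 x2) := enc_nat 2 (h29 h)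

def t154 (b : Bx) : TM := tnat 2 (t66 b)
noncomputable def v154 (x1 x2 : ℝ) : ℝ := ((2 : ℕ) : ℝ) * v66 x1 x2
theorem h154 (h : In b E x1 x2) : Enc S E (t154 b) (v154 x1 x2) := enc_nat 2 (h66 h)

def t156 (b : Bx) : TM := tadd (t5 b) (t153 b)
noncomputable def v156 (x1 x2 : ℝ) : ℝ := v5 x1 x2 + v153 x1 x2
theorem h156 (h : In b E x1 x2) : Enc S E (t156 b) (v156 x1 x2) := enc_add (h5 h) (h153 h)

def t157 (b : Bx) : TM := tmul S (t2 b) (t24 b)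
noncomputable def v157 (x1 x2 : ℝ) : ℝ := v2 x1 x2 * v24 x1 x2
theorem h157 (h : In b E x1 x2) : Enc S E (t157 b) (v157 x1 x2) := enc_mul hS (h2 h) (h24 h)

def t158 (b : Bx) : TM := tsub (t157 b) (t29 b)
noncomputable def v158 (x1 x2 : ℝ) : ℝ := v157 x1 x2 - v29 x1 x2
theorem h158 (h : In b E x1 x2) : Enc S E (t158 b) (v158 x1 x2) := enc_sub (h157 h) (h29 h)

def t159 (b : Bx) : TM := tadd (t2 b) (t66 b)
noncomputable def v159 (x1 x2 : ℝ) : ℝ := v2 x1 x2 + v66 x1 x2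
theorem h159 (h : In b E x1 x2) : Enc S E (t159 b) (v159 x1 x2) := enc_add (h2 h) (h66 h)

def t160 (b : Bx) : TM := tmul S (t156 b) (t158 b)
noncomputable def v160 (x1 x2 : ℝ) : ℝ := v156 x1 x2 * v158 x1 x2
theorem h160 (h : In b E x1 x2) : Enc S E (t160 b) (v160 x1 x2) := enc_mul hS (h156 h) (h158 h)

def t161 (b : Bx) : TM := tmul S (t154 b) (t46 b)
noncomputable def v161 (x1 x2 : ℝ) : ℝ := v154 x1 x2 * v46 x1 x2
theorem h161 (h : In b E x1 x2) : Enc S E (t161 b) (v161 x1 x2) := enc_mul hS (h154 h) (h46 h)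

def t163 (b : Bx) : TM := tmul S (t156 b) (t159 b)
noncomputable def v163 (x1 x2 : ℝ) : ℝ := v156 x1 x2 * v159 x1 x2
theorem h163 (h : In b E x1 x2) : Enc S E (t163 b) (v163 x1 x2) := enc_mul hS (h156 h) (h159 h)

def t164 (b : Bx) : TM := tsub (t163 b) (t161 b)
noncomputable def v164 (x1 x2 : ℝ) : ℝ := v163 x1 x2 - v161 x1 x2
theorem h164 (h : In b E x1 x2) : Enc S E (t164 b) (v164 x1 x2) := enc_sub (h163 h) (h161 h)

def t165 (b : Bx) : TM := tadd (t5 b) (t157 b)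
noncomputable def v165 (x1 x2 : ℝ) : ℝ := v5 x1 x2 + v157 x1 x2
theorem h165 (h : In b E x1 x2) : Enc S E (t165 b) (v165 x1 x2) := enc_add (h5 h) (h157 h)

def t166 (b : Bx) : TM := tsub (t165 b) (t29 b)
noncomputable def v166 (x1 x2 : ℝ) : ℝ := v165 x1 x2 - v29 x1 x2
theorem h166 (h : In b E x1 x2) : Enc S E (t166 b) (v166 x1 x2) := enc_sub (h165 h) (h29 h)

def t167 (b : Bx) : TM := tnat 2 (t166 b)
noncomputable def v167 (x1 x2 : ℝ) : ℝ := ((2 : ℕ) : ℝ) * v166 x1 x2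
theorem h167 (h : In b E x1 x2) : Enc S E (t167 b) (v167 x1 x2) := enc_nat 2 (h166 h)

def t168 (b : Bx) : TM := tnat 2 (t159 b)
noncomputable def v168 (x1 x2 : ℝ) : ℝ := ((2 : ℕ) : ℝ) * v159 x1 x2
theorem h168 (h : In b E x1 x2) : Enc S E (t168 b) (v168 x1 x2) := enc_nat 2 (h159 h)

def t169 (b : Bx) : TM := tinv S (t167 b)
noncomputable def v169 (x1 x2 : ℝ) : ℝ := (v167 x1 x2)⁻¹
theorem h169 (h : In b E x1 x2) : Enc S E (t169 b) (v169 x1 x2) := enc_inv hS (h167 h)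

def t170 (b : Bx) : TM := tmul S (t51 b) (t169 b)
noncomputable def v170 (x1 x2 : ℝ) : ℝ := v51 x1 x2 * v169 x1 x2
theorem h170 (h : In b E x1 x2) : Enc S E (t170 b) (v170 x1 x2) := enc_mul hS (h51 h) (h169 h)

def t171 (b : Bx) : TM := tmul S (t168 b) (t170 b)
noncomputable def v171 (x1 x2 : ℝ) : ℝ := v168 x1 x2 * v170 x1 x2
theorem h171 (h : In b E x1 x2) : Enc S E (t171 b) (v171 x1 x2) := enc_mul hS (h168 h) (h170 h)

def t174 (b : Bx) : TM := tmul S (t164 b) (t51 b)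
noncomputable def v174 (x1 x2 : ℝ) : ℝ := v164 x1 x2 * v51 x1 x2
theorem h174 (h : In b E x1 x2) : Enc S E (t174 b) (v174 x1 x2) := enc_mul hS (h164 h) (h51 h)

def t175 (b : Bx) : TM := tmul S (t160 b) (t171 b)
noncomputable def v175 (x1 x2 : ℝ) : ℝ := v160 x1 x2 * v171 x1 x2
theorem h175 (h : In b E x1 x2) : Enc S E (t175 b) (v175 x1 x2) := enc_mul hS (h160 h) (h171 h)

def t179 (b : Bx) : TM := tsub (t175 b) (t174 b)
noncomputable def v179 (x1 x2 : ℝ) : ℝ := v175 x1 x2 - v174 x1 x2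
theorem h179 (h : In b E x1 x2) : Enc S E (t179 b) (v179 x1 x2) := enc_sub (h175 h) (h174 h)

def t180 (b : Bx) : TM := tsub (t179 b) (t134 b)
noncomputable def v180 (x1 x2 : ℝ) : ℝ := v179 x1 x2 - v134 x1 x2
theorem h180 (h : In b E x1 x2) : Enc S E (t180 b) (v180 x1 x2) := enc_sub (h179 h) (h134 h)

def t182 (b : Bx) : TM := tmul S (t151 b) (t179 b)
noncomputable def v182 (x1 x2 : ℝ) : ℝ := v151 x1 x2 * v179 x1 x2
theorem h182 (h : In b E x1 x2) : Enc S E (t182 b) (v182 x1 x2) := enc_mul hS (h151 h) (h179 h)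

def t183 (b : Bx) : TM := tsub (t182 b) (t42 b)
noncomputable def v183 (x1 x2 : ℝ) : ℝ := v182 x1 x2 - v42 x1 x2
theorem h183 (h : In b E x1 x2) : Enc S E (t183 b) (v183 x1 x2) := enc_sub (h182 h) (h42 h)

def t186 (b : Bx) : TM := tmul S (t152 b) (t180 b)
noncomputable def v186 (x1 x2 : ℝ) : ℝ := v152 x1 x2 * v180 x1 x2
theorem h186 (h : In b E x1 x2) : Enc S E (t186 b) (v186 x1 x2) := enc_mul hS (h152 h) (h180 h)

def t187 (b : Bx) : TM := tsub (t183 b) (t186 b)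
noncomputable def v187 (x1 x2 : ℝ) : ℝ := v183 x1 x2 - v186 x1 x2
theorem h187 (h : In b E x1 x2) : Enc S E (t187 b) (v187 x1 x2) := enc_sub (h183 h) (h186 h)

def t188 (b : Bx) : TM := tsub (t0 b) (t1 b)
noncomputable def v188 (x1 x2 : ℝ) : ℝ := v0 x1 x2 - v1 x1 x2
theorem h188 (h : In b E x1 x2) : Enc S E (t188 b) (v188 x1 x2) := enc_sub (h0 h) (h1 h)

def t190 (b : Bx) : TM := tsub (t3 b) (t1 b)
noncomputable def v190 (x1 x2 : ℝ) : ℝ := v3 x1 x2 - v1 x1 x2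
theorem h190 (h : In b E x1 x2) : Enc S E (t190 b) (v190 x1 x2) := enc_sub (h3 h) (h1 h)

def t191 (b : Bx) : TM := qn_t (t32 b) (t190 b) (t149 b) (t187 b) (t180 b)
noncomputable def v191 (x1 x2 : ℝ) : ℝ := qn_v (v32 x1 x2) (v190 x1 x2) (v149 x1 x2) (v187 x1 x2) (v180 x1 x2)
theorem h191 (h : In b E x1 x2) : Enc S E (t191 b) (v191 x1 x2) := qn_enc (h32 h) (h190 h) (h149 h) (h187 h) (h180 h)

def t192 (b : Bx) : TM := tscale 1 4 (t2 b)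
noncomputable def v192 (x1 x2 : ℝ) : ℝ := ((1 : ℕ) : ℝ) / ((4 : ℕ) : ℝ) * v2 x1 x2
theorem h192 (h : In b E x1 x2) : Enc S E (t192 b) (v192 x1 x2) := enc_scale 1 (by norm_num) (h2 h)

def t194 (b : Bx) : TM := tsub (t192 b) (t0 b)
noncomputable def v194 (x1 x2 : ℝ) : ℝ := v192 x1 x2 - v0 x1 x2
theorem h194 (h : In b E x1 x2) : Enc S E (t194 b) (v194 x1 x2) := enc_sub (h192 h) (h0 h)

def t196 (b : Bx) : TM := tsub (t32 b) (t192 b)
noncomputable def v196 (x1 x2 : ℝ) : ℝ := v32 x1 x2 - v192 x1 x2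
theorem h196 (h : In b E x1 x2) : Enc S E (t196 b) (v196 x1 x2) := enc_sub (h32 h) (h192 h)

def t198 (b : Bx) : TM := tsub (t192 b) (t1 b)
noncomputable def v198 (x1 x2 : ℝ) : ℝ := v192 x1 x2 - v1 x1 x2
theorem h198 (h : In b E x1 x2) : Enc S E (t198 b) (v198 x1 x2) := enc_sub (h192 h) (h1 h)

def t199 (_b : Bx) : TM := tconst (Nat.div (Nat.mul 1 S) 16) 0 1
noncomputable def v199 (_x1 _x2 : ℝ) : ℝ := ((1 : ℕ) : ℝ) / ((16 : ℕ) : ℝ)
theorem h199 (_h : In b E x1 x2) : Enc S E (t199 b) (v199 x1 x2) := enc_rat E 1 (by norm_num)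

def t200 (b : Bx) : TM := tsub (t25 b) (t199 b)
noncomputable def v200 (x1 x2 : ℝ) : ℝ := v25 x1 x2 - v199 x1 x2
theorem h200 (h : In b E x1 x2) : Enc S E (t200 b) (v200 x1 x2) := enc_sub (h25 h) (h199 h)

def t201 (b : Bx) : TM := tsub (t24 b) (t1 b)
noncomputable def v201 (x1 x2 : ℝ) : ℝ := v24 x1 x2 - v1 x1 x2
theorem h201 (h : In b E x1 x2) : Enc S E (t201 b) (v201 x1 x2) := enc_sub (h24 h) (h1 h)

def t202 (b : Bx) : TM := tsub (t201 b) (t199 b)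
noncomputable def v202 (x1 x2 : ℝ) : ℝ := v201 x1 x2 - v199 x1 x2
theorem h202 (h : In b E x1 x2) : Enc S E (t202 b) (v202 x1 x2) := enc_sub (h201 h) (h199 h)

def t203 (b : Bx) : TM := tsub (t57 b) (t56 b)
noncomputable def v203 (x1 x2 : ℝ) : ℝ := v57 x1 x2 - v56 x1 x2
theorem h203 (h : In b E x1 x2) : Enc S E (t203 b) (v203 x1 x2) := enc_sub (h57 h) (h56 h)

def t204 (b : Bx) : TM := tadd (t141 b) (t9 b)
noncomputable def v204 (x1 x2 : ℝ) : ℝ := v141 x1 x2 + v9 x1 x2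
theorem h204 (h : In b E x1 x2) : Enc S E (t204 b) (v204 x1 x2) := enc_add (h141 h) (h9 h)

def t205 (b : Bx) : TM := tneg (t204 b)
noncomputable def v205 (x1 x2 : ℝ) : ℝ := -(v204 x1 x2)
theorem h205 (h : In b E x1 x2) : Enc S E (t205 b) (v205 x1 x2) := enc_neg (h204 h)

def g0 (b : Bx) : Bool := and (pos (t79 b)) (and (pos (t27 b)) (and (pos (t64 b)) (and (pos (t81 b)) (and (pos (t95 b)) (and (pos (t89 b)) (and (pos (t108 b)) (and (pos (t123 b)) (and (pos (t125 b)) (and (pos (t50 b)) (and (pos (t167 b)) (and (pos (t40 b)) (or (pos (t201 b)) (pos (t191 b))))))))))))))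

def l0 (b : Bx) : Nat := cond (g0 b) 0 (pickb 1 (t191 b) b)

def P0 (x1 x2 : ℝ) : Prop := 0 < v79 x1 x2 ∧ 0 < v27 x1 x2 ∧ 0 < v64 x1 x2 ∧ 0 < v81 x1 x2 ∧ 0 < v95 x1 x2 ∧ 0 < v89 x1 x2 ∧ 0 < v108 x1 x2 ∧ 0 < v123 x1 x2 ∧ 0 < v125 x1 x2 ∧ 0 < v50 x1 x2 ∧ 0 < v167 x1 x2 ∧ 0 < v40 x1 x2 ∧ (0 < v201 x1 x2 ∨ 0 < v191 x1 x2)

theorem l0_sound (h : In b E x1 x2) (e : l0 b = 0) : P0 x1 x2 := by
  have e1 : g0 b = true := by
    rcases e2 : g0 b with _ | _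
    · unfold l0 at e; rw [e2, cond_false] at e; exact absurd e (pickb_ne _ _ _)
    · rfl
  exact ⟨pos_sound hS (h79 h) (Bool.and_eq_true_iff.mp e1).1, ⟨pos_sound hS (h27 h) (Bool.and_eq_true_iff.mp (Bool.and_eq_true_iff.mp e1).2).1, ⟨pos_sound hS (h64 h) (Bool.and_eq_true_iff.mp (Bool.and_eq_true_iff.mp (Bool.and_eq_true_iff.mp e1).2).2).1, ⟨pos_sound hS (h81 h) (Bool.and_eq_true_iff.mp (Bool.and_eq_true_iff.mp (Bool.and_eq_true_iff.mp (Bool.and_eq_true_iff.mp e1).2).2).2).1, ⟨pos_sound hS (h95 h) (Bool.and_eq_true_iff.mp (Bool.and_eq_true_iff.mp (Bool.and_eq_true_iff.mp (Bool.and_eq_true_iff.mp (Bool.and_eq_true_iff.mp e1).2).2).2).2).1, ⟨pos_sound hS (h89 h) (Bool.and_eq_true_iff.mp (Bool.and_eq_true_iff.mp (Bool.and_eq_true_iff.mp (Bool.and_eq_true_iff.mp (Bool.and_eq_true_iff.mp (Bool.and_eq_true_iff.mp e1).2).2).2).2).2).1, ⟨pos_sound hS (h108 h) (Bool.and_eq_true_iff.mp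 (Bool.and_eq_true_iff.mp (Bool.and_eq_true_iff.mp (Bool.and_eq_true_iff.mp (Bool.and_eq_true_iff.mp (Bool.and_eq_true_iff.mp (Bool.and_eq_true_iff.mp e1).2).2).2).2).2).2).1, ⟨pos_sound hS (h123 h) (Bool.and_eq_true_iff.mp (Bool.and_eq_true_iff.mp (Bool.and_eq_true_iff.mp (Bool.and_eq_true_iff.mp (Bool.and_eq_true_iff.mp (Bool.and_eq_true_iff.mp (Bool.and_eq_true_iff.mp (Bool.and_eq_true_iff.mp e1).2).2).2).2).2).2).2).1, ⟨pos_sound hS (h125 h) (Bool.and_eq_true_iff.mp (Bool.and_eq_true_iff.mp (Bool.and_eq_true_iff.mp (Bool.and_eq_true_iff.mp (Bool.and_eq_true_iff.mp (Bool.and_eq_true_iff.mp (Bool.and_eq_true_iff.mp (Bool.and_eq_true_iff.mp (Bool.and_eq_true_iff.mp e1).2).2).2).2).2).2).2).2).1, ⟨pos_sound hS (h50 h) (Bool.and_eq_true_iff.mp (Bool.and_eq_true_iff.mp (Bool.and_eq_true_iff.mp (Bool.and_eq_true_iff.mp (Bool.and_eq_true_iff.mp (Bool.and_eq_true_iff.mp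 (Bool.and_eq_true_iff.mp (Bool.and_eq_true_iff.mp (Bool.and_eq_true_iff.mp (Bool.and_eq_true_iff.mp e1).2).2).2).2).2).2).2).2).2).1, ⟨pos_sound hS (h167 h) (Bool.and_eq_true_iff.mp (Bool.and_eq_true_iff.mp (Bool.and_eq_true_iff.mp (Bool.and_eq_true_iff.mp (Bool.and_eq_true_iff.mp (Bool.and_eq_true_iff.mp (Bool.and_eq_true_iff.mp (Bool.and_eq_true_iff.mp (Bool.and_eq_true_iff.mp (Bool.and_eq_true_iff.mp (Bool.and_eq_true_iff.mp e1).2).2).2).2).2).2).2).2).2).2).1, ⟨pos_sound hS (h40 h) (Bool.and_eq_true_iff.mp (Bool.and_eq_true_iff.mp (Bool.and_eq_true_iff.mp (Bool.and_eq_true_iff.mp (Bool.and_eq_true_iff.mp (Bool.and_eq_true_iff.mp (Bool.and_eq_true_iff.mp (Bool.and_eq_true_iff.mp (Bool.and_eq_true_iff.mp (Bool.and_eq_true_iff.mp (Bool.and_eq_true_iff.mp (Bool.and_eq_true_iff.mp e1).2).2).2).2).2).2).2).2).2).2).2).1, ((Bool.or_eq_true_iff.mp (Bool.and_eq_true_iff.mp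 (Bool.and_eq_true_iff.mp (Bool.and_eq_true_iff.mp (Bool.and_eq_true_iff.mp (Bool.and_eq_true_iff.mp (Bool.and_eq_true_iff.mp (Bool.and_eq_true_iff.mp (Bool.and_eq_true_iff.mp (Bool.and_eq_true_iff.mp (Bool.and_eq_true_iff.mp (Bool.and_eq_true_iff.mp (Bool.and_eq_true_iff.mp e1).2).2).2).2).2).2).2).2).2).2).2).2).imp (fun a => pos_sound hS (h201 h) a) (fun a => pos_sound hS (h191 h) a))⟩⟩⟩⟩⟩⟩⟩⟩⟩⟩⟩⟩

def g1 (b : Bx) : Bool := or (pos (t194 b)) (or (pos (t151 b)) (or (pos (t196 b)) (or (pos (t198 b)) (or (pos (t152 b)) (or (pos (t200 b)) (or (pos (t202 b)) (or (pos (t188 b)) (or (pos (t203 b)) (pos (t205 b))))))))))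

def l1 (b : Bx) : Nat := cond (g1 b) 0 (l0 b)

def P1 (x1 x2 : ℝ) : Prop := (0 < v194 x1 x2 ∨ 0 < v151 x1 x2 ∨ 0 < v196 x1 x2 ∨ 0 < v198 x1 x2 ∨ 0 < v152 x1 x2 ∨ 0 < v200 x1 x2 ∨ 0 < v202 x1 x2 ∨ 0 < v188 x1 x2 ∨ 0 < v203 x1 x2 ∨ 0 < v205 x1 x2) ∨ (P0 x1 x2)

theorem l1_sound (h : In b E x1 x2) (e : l1 b = 0) : P1 x1 x2 := by
  unfold l1 at e
  rcases e1 : g1 b with _ | _
  · rw [e1, cond_false] at e
    have z0 : l0 b = 0 := e
    exact Or.inr (l0_sound h z0)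
  · exact Or.inl (((Bool.or_eq_true_iff.mp e1).imp (fun a => pos_sound hS (h194 h) a) (fun a => ((Bool.or_eq_true_iff.mp a).imp (fun a => pos_sound hS (h151 h) a) (fun a => ((Bool.or_eq_true_iff.mp a).imp (fun a => pos_sound hS (h196 h) a) (fun a => ((Bool.or_eq_true_iff.mp a).imp (fun a => pos_sound hS (h198 h) a) (fun a => ((Bool.or_eq_true_iff.mp a).imp (fun a => pos_sound hS (h152 h) a) (fun a => ((Bool.or_eq_true_iff.mp a).imp (fun a => pos_sound hS (h200 h) a) (fun a => ((Bool.or_eq_true_iff.mp a).imp (fun a => pos_sound hS (h202 h) a) (fun a => ((Bool.or_eq_true_iff.mp a).imp (fun a => pos_sound hS (h188 h) a) (fun a => ((Bool.or_eq_true_iff.mp a).imp (fun a => pos_sound hS (h203 h) a) (fun a => pos_sound hS (h205 h) a)))))))))))))))))))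

def f (b : Bx) : Nat := l1 b

/-- the statement -/
def Q (x1 x2 : ℝ) : Prop := P1 x1 x2

theorem f_sound (b : Bx) (hb : f b = 0) (x1 x2 : ℝ) (hm : Mem S b x1 x2) : Q x1 x2 := by
  obtain ⟨E, h⟩ := pt_of_mem hm
  have h : In b E x1 x2 := h
  unfold f at hb
  have e := hb
  have z1 : l1 b = 0 := e
  exact (l1_sound h z1)

/-- the box -/
def b0 : Bx := ⟨697415773, 0, 232471926, 697415773, 0, 232471926⟩

theorem chk_all {n : ℕ} {b : Bx} (h : chk f n b = true) (x1 x2 : ℝ) (hm : Mem S b x1 x2) : Q x1 x2 :=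
  chk_sound (fun b hb x1 x2 hm => f_sound b hb x1 x2 hm) n b h x1 x2 hm


end Pool.Agent.Strip051.LB.ChB00V2_pm_101
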