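import Pool.Agent.Strip051.LB.ChB00V2_pm_101.Defs
import Pool.Agent.Strip051.LB.Slope
import Pool.Agent.Strip051.LB.Star
import Pool.Agent.Strip051.LB.Cf

/-! # LINE tight chart ChB00V2_pm_101: slopes -/

namespace Pool.Agent.Strip051.LB.ChB00V2_pm_101

open Pool.Agent.Strip051.LB Pool.Agent.Strip051.LB.Fn Pool.Agent.Strip051.LB.Fc Pool.Agent.StripNear

set_option maxRecDepth 100000
set_option linter.all false

noncomputable def v43 (x1 x2 : ℝ) : ℝ := ((2 : ℕ) : ℝ) * v28 x1 x2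

noncomputable def v44 (x1 x2 : ℝ) : ℝ := v5 x1 x2 + v43 x1 x2

noncomputable def v47 (x1 x2 : ℝ) : ℝ := v44 x1 x2 * v46 x1 x2

noncomputable def v52 (x1 x2 : ℝ) : ℝ := v47 x1 x2 * v51 x1 x2

noncomputable def v53 (x1 x2 : ℝ) : ℝ := -(v52 x1 x2)

noncomputable def v58 (x1 x2 : ℝ) : ℝ := v56 x1 x2 - v57 x1 x2

noncomputable def v60 (x1 x2 : ℝ) : ℝ := (v24 x1 x2) ^ 2

noncomputable def v62 (x1 x2 : ℝ) : ℝ := v5 x1 x2 - v60 x1 x2

noncomputable def v63 (x1 x2 : ℝ) : ℝ := -(v61 x1 x2)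

noncomputable def v67 (x1 x2 : ℝ) : ℝ := -(v66 x1 x2)

noncomputable def v70 (x1 x2 : ℝ) : ℝ := (v69 x1 x2) ^ 2

noncomputable def v73 (x1 x2 : ℝ) : ℝ := v55 x1 x2 - v70 x1 x2

noncomputable def v78 (x1 x2 : ℝ) : ℝ := v73 x1 x2 - v76 x1 x2

noncomputable def v83 (x1 x2 : ℝ) : ℝ := -(v18 x1 x2)

noncomputable def v86 (x1 x2 : ℝ) : ℝ := v57 x1 x2 * v85 x1 x2

noncomputable def v91 (x1 x2 : ℝ) : ℝ := v86 x1 x2 * v90 x1 x2

noncomputable def v92 (x1 x2 : ℝ) : ℝ := -(v91 x1 x2)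

noncomputable def v93 (x1 x2 : ℝ) : ℝ := v55 x1 x2 - v76 x1 x2

noncomputable def v94 (x1 x2 : ℝ) : ℝ := -(v77 x1 x2)

noncomputable def v98 (x1 x2 : ℝ) : ℝ := -(v97 x1 x2)

noncomputable def v106 (x1 x2 : ℝ) : ℝ := -(v5 x1 x2)

noncomputable def v114 (x1 x2 : ℝ) : ℝ := -(v113 x1 x2)

noncomputable def v115 (x1 x2 : ℝ) : ℝ := v100 x1 x2 * v111 x1 x2

noncomputable def v119 (x1 x2 : ℝ) : ℝ := v116 x1 x2 - v117 x1 x2

noncomputable def v120 (x1 x2 : ℝ) : ℝ := -(v115 x1 x2)

noncomputable def v126 (x1 x2 : ℝ) : ℝ := v82 x1 x2 - v80 x1 x2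

noncomputable def v127 (x1 x2 : ℝ) : ℝ := v126 x1 x2 * v122 x1 x2

noncomputable def v129 (x1 x2 : ℝ) : ℝ := v127 x1 x2 + v91 x1 x2

noncomputable def v142 (x1 x2 : ℝ) : ℝ := v7 x1 x2 * v24 x1 x2

noncomputable def v143 (x1 x2 : ℝ) : ℝ := v29 x1 x2 * v0 x1 x2

noncomputable def v145 (x1 x2 : ℝ) : ℝ := -(v144 x1 x2)

noncomputable def v146 (x1 x2 : ℝ) : ℝ := v142 x1 x2 + v143 x1 x2

noncomputable def v148 (x1 x2 : ℝ) : ℝ := v146 x1 x2 * v139 x1 x2

noncomputable def v150 (x1 x2 : ℝ) : ℝ := v148 x1 x2 - v9 x1 x2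

noncomputable def v155 (x1 x2 : ℝ) : ℝ := -(v154 x1 x2)

noncomputable def v172 (x1 x2 : ℝ) : ℝ := -(v171 x1 x2)

noncomputable def v173 (x1 x2 : ℝ) : ℝ := v160 x1 x2 * v169 x1 x2

noncomputable def v177 (x1 x2 : ℝ) : ℝ := v174 x1 x2 - v175 x1 x2

noncomputable def v178 (x1 x2 : ℝ) : ℝ := -(v173 x1 x2)

noncomputable def v181 (x1 x2 : ℝ) : ℝ := v24 x1 x2 - v3 x1 x2

structure Cx (x1 x2 : ℝ) : Prop where
  hc : v7 x1 x2 ^ 2 + x1 ^ 2 = 1
  p27 : 0 < v27 x1 x2
  p64 : 0 < v64 x1 x2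
  p81 : 0 < v81 x1 x2
  p95 : 0 < v95 x1 x2
  p89 : 0 < v89 x1 x2
  p108 : 0 < v108 x1 x2
  p123 : 0 < v123 x1 x2
  p125 : 0 < v125 x1 x2
  p50 : 0 < v50 x1 x2
  p167 : 0 < v167 x1 x2
  p40 : 0 < v40 x1 x2

variable {x1 x2 : ℝ}

theorem s3q (x1 x2 : ℝ) : v2 x1 x2 ^ 2 = 3 := by
  rw [v2]; exact s3sq

theorem s3ne (x1 x2 : ℝ) : v2 x1 x2 ≠ 0 := by
  rw [v2]; positivity

theorem s1 (c : Cx x1 x2) : v1 x1 x2 = v24 x1 x2 + v25 x1 x2 * v5 x1 x2 := by
  simp only [v0, v1, v5, v12, v24, v25]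
  (try push_cast)
  first | ring | grind

theorem s26 (c : Cx x1 x2) : v26 x1 x2 = v60 x1 x2 + v25 x1 x2 * v61 x1 x2 := by
  have a0 : (v1 x1 x2 + v24 x1 x2) * v1 x1 x2 = (v1 x1 x2 + v24 x1 x2) * (v24 x1 x2 + v25 x1 x2 * v5 x1 x2) := congrArg (fun z => (v1 x1 x2 + v24 x1 x2) * z) (s1 c)
  try simp only [v0, v1, v5, v12, v24, v25, v26, v60, v61] at a0
  simp only [v0, v1, v5, v12, v24, v25, v26, v60, v61]
  (try push_cast at a0 ⊢)
  first | linear_combination a0 | ring | grind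

theorem s27 (c : Cx x1 x2) : v27 x1 x2 = v62 x1 x2 + v25 x1 x2 * v63 x1 x2 := by
  have a1 := s26 c
  try simp only [v0, v1, v5, v12, v24, v25, v27, v61, v62, v63] at a1
  simp only [v0, v1, v5, v12, v24, v25, v27, v61, v62, v63]
  (try push_cast at a1 ⊢)
  first | linear_combination -a1 | ring | grind

theorem q28 (c : Cx x1 x2) : v62 x1 x2 = v29 x1 x2 ^ 2 := by
  have hc := c.hc
  have h3 := s3q x1 x2
  simp only [v0, v3, v5, v10, v12, v14, v16, v24, v29, v60, v62] at hc ⊢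
  push_cast at hc ⊢
  grind

theorem s28 (c : Cx x1 x2) : v28 x1 x2 = v29 x1 x2 + v25 x1 x2 * v67 x1 x2 := by
  have a0 := s27 c
  have e : 0 < Real.sqrt (v27 x1 x2) + v29 x1 x2 := by
    have e := c.p64
    simp only [v5, v16, v27, v28, v29, v64] at e ⊢
    push_cast at e ⊢
    linarith
  have b := sl_sqrt a0 (q28 c) (le_of_lt c.p27) e
  clear a0
  try simp only [v0, v1, v5, v12, v16, v24, v25, v27, v28, v29, v61, v62, v63, v64, v65, v66, v67] at b
  simp only [v0, v1, v5, v12, v16, v24, v25, v27, v28, v29, v61, v62, v63, v64, v65, v66, v67]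
  (try push_cast at b ⊢)
  first | linear_combination b | ring | grind

theorem s30 (c : Cx x1 x2) : v30 x1 x2 = v68 x1 x2 + v25 x1 x2 * v66 x1 x2 := by
  have a0 := s28 c
  try simp only [v0, v1, v12, v16, v24, v25, v29, v30, v67, v68] at a0
  simp only [v0, v1, v12, v16, v24, v25, v29, v30, v67, v68]
  (try push_cast at a0 ⊢)
  first | linear_combination -a0 | ring | grind

theorem s31 (c : Cx x1 x2) : v31 x1 x2 = v69 x1 x2 + v25 x1 x2 * v66 x1 x2 := by
  have a0 := s30 c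
  try simp only [v0, v1, v12, v16, v24, v25, v29, v30, v31, v68, v69] at a0
  simp only [v0, v1, v12, v16, v24, v25, v29, v30, v31, v68, v69]
  (try push_cast at a0 ⊢)
  first | linear_combination a0 | ring | grind

theorem s32 (c : Cx x1 x2) : v32 x1 x2 = v75 x1 x2 + v25 x1 x2 * v5 x1 x2 := by
  have a0 := s1 c
  try simp only [v0, v1, v5, v12, v24, v25, v32, v75] at a0
  simp only [v0, v1, v5, v12, v24, v25, v32, v75]
  (try push_cast at a0 ⊢)
  first | linear_combination a0 | ring | grind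

theorem s43 (c : Cx x1 x2) : v43 x1 x2 = v153 x1 x2 + v25 x1 x2 * v155 x1 x2 := by
  have a0 := s28 c
  try simp only [v0, v1, v12, v16, v24, v25, v29, v43, v67, v153, v154, v155] at a0
  simp only [v0, v1, v12, v16, v24, v25, v29, v43, v67, v153, v154, v155]
  (try push_cast at a0 ⊢)
  first | linear_combination (2 : ℝ) * a0 | ring | grind

theorem s44 (c : Cx x1 x2) : v44 x1 x2 = v156 x1 x2 + v25 x1 x2 * v155 x1 x2 := by
  have a1 := s43 c
  try simp only [v0, v1, v5, v12, v16, v24, v25, v29, v43, v44, v153, v154, v155, v156] at a1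
  simp only [v0, v1, v5, v12, v16, v24, v25, v29, v43, v44, v153, v154, v155, v156]
  (try push_cast at a1 ⊢)
  first | linear_combination a1 | ring | grind

theorem s45 (c : Cx x1 x2) : v45 x1 x2 = v157 x1 x2 + v25 x1 x2 * v2 x1 x2 := by
  have a1 : (v2 x1 x2) * v1 x1 x2 = (v2 x1 x2) * (v24 x1 x2 + v25 x1 x2 * v5 x1 x2) := congrArg (fun z => (v2 x1 x2) * z) (s1 c)
  try simp only [v0, v1, v2, v5, v12, v24, v25, v45, v157] at a1
  simp only [v0, v1, v2, v5, v12, v24, v25, v45, v157]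
  (try push_cast at a1 ⊢)
  first | linear_combination a1 | ring | grind

theorem s46 (c : Cx x1 x2) : v46 x1 x2 = v158 x1 x2 + v25 x1 x2 * v159 x1 x2 := by
  have a0 := s45 c
  have a1 := s28 c
  try simp only [v0, v1, v2, v12, v16, v24, v25, v29, v46, v67, v158, v159] at a0
  try simp only [v0, v1, v2, v12, v16, v24, v25, v29, v46, v67, v158, v159] at a1
  simp only [v0, v1, v2, v12, v16, v24, v25, v29, v46, v67, v158, v159]
  (try push_cast at a0 a1 ⊢)
  first | linear_combination a0 - a1 | ring | grind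

theorem s47 (c : Cx x1 x2) : v47 x1 x2 = v160 x1 x2 + v25 x1 x2 * v164 x1 x2 := by
  have a0 : (v46 x1 x2) * v44 x1 x2 = (v46 x1 x2) * (v156 x1 x2 + v25 x1 x2 * v155 x1 x2) := congrArg (fun z => (v46 x1 x2) * z) (s44 c)
  have a1 : (v156 x1 x2) * v46 x1 x2 = (v156 x1 x2) * (v158 x1 x2 + v25 x1 x2 * v159 x1 x2) := congrArg (fun z => (v156 x1 x2) * z) (s46 c)
  try simp only [v0, v1, v2, v5, v12, v16, v24, v25, v29, v43, v44, v46, v47, v153, v154, v155, v156, v158, v159, v160, v161, v163, v164] at a0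
  try simp only [v0, v1, v2, v5, v12, v16, v24, v25, v29, v43, v44, v46, v47, v153, v154, v155, v156, v158, v159, v160, v161, v163, v164] at a1
  simp only [v0, v1, v2, v5, v12, v16, v24, v25, v29, v43, v44, v46, v47, v153, v154, v155, v156, v158, v159, v160, v161, v163, v164]
  (try push_cast at a0 a1 ⊢)
  first | linear_combination a0 + a1 | ring | grind

theorem s48 (c : Cx x1 x2) : v48 x1 x2 = v165 x1 x2 + v25 x1 x2 * v2 x1 x2 := by
  have a1 := s45 c
  try simp only [v0, v1, v2, v5, v12, v24, v25, v48, v165] at a1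
  simp only [v0, v1, v2, v5, v12, v24, v25, v48, v165]
  (try push_cast at a1 ⊢)
  first | linear_combination a1 | ring | grind

theorem s49 (c : Cx x1 x2) : v49 x1 x2 = v166 x1 x2 + v25 x1 x2 * v159 x1 x2 := by
  have a0 := s48 c
  have a1 := s28 c
  try simp only [v0, v1, v2, v5, v12, v16, v24, v25, v29, v48, v49, v67, v159, v165, v166] at a0
  try simp only [v0, v1, v2, v5, v12, v16, v24, v25, v29, v48, v49, v67, v159, v165, v166] at a1
  simp only [v0, v1, v2, v5, v12, v16, v24, v25, v29, v48, v49, v67, v159, v165, v166]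
  (try push_cast at a0 a1 ⊢)
  first | linear_combination a0 - a1 | ring | grind

theorem s50 (c : Cx x1 x2) : v50 x1 x2 = v167 x1 x2 + v25 x1 x2 * v168 x1 x2 := by
  have a0 := s49 c
  try simp only [v0, v1, v2, v5, v12, v16, v24, v25, v29, v48, v49, v50, v159, v165, v166, v167, v168] at a0
  simp only [v0, v1, v2, v5, v12, v16, v24, v25, v29, v48, v49, v50, v159, v165, v166, v167, v168]
  (try push_cast at a0 ⊢)
  first | linear_combination (2 : ℝ) * a0 | ring | grind

theorem s51 (c : Cx x1 x2) : v51 x1 x2 = v169 x1 x2 + v25 x1 x2 * v172 x1 x2 := by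
  have a0 := s50 c
  have b := sl_inv a0 (c.p50).ne' (c.p167).ne'
  clear a0
  try simp only [v0, v1, v2, v5, v12, v16, v24, v25, v29, v48, v49, v50, v51, v159, v165, v166, v167, v168, v169, v170, v171, v172] at b
  simp only [v0, v1, v2, v5, v12, v16, v24, v25, v29, v48, v49, v50, v51, v159, v165, v166, v167, v168, v169, v170, v171, v172]
  (try push_cast at b ⊢)
  first | linear_combination b | ring | grind

theorem s52 (c : Cx x1 x2) : v52 x1 x2 = v173 x1 x2 + v25 x1 x2 * v177 x1 x2 := by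
  have a0 : (v51 x1 x2) * v47 x1 x2 = (v51 x1 x2) * (v160 x1 x2 + v25 x1 x2 * v164 x1 x2) := congrArg (fun z => (v51 x1 x2) * z) (s47 c)
  have a1 : (v160 x1 x2) * v51 x1 x2 = (v160 x1 x2) * (v169 x1 x2 + v25 x1 x2 * v172 x1 x2) := congrArg (fun z => (v160 x1 x2) * z) (s51 c)
  try simp only [v0, v1, v12, v24, v25, v52, v164, v172, v173, v174, v175, v177] at a0
  try simp only [v0, v1, v12, v24, v25, v52, v164, v172, v173, v174, v175, v177] at a1
  simp only [v0, v1, v12, v24, v25, v52, v164, v172, v173, v174, v175, v177]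
  (try push_cast at a0 a1 ⊢)
  first | linear_combination a0 + a1 | ring | grind

theorem s53 (c : Cx x1 x2) : v53 x1 x2 = v178 x1 x2 + v25 x1 x2 * v179 x1 x2 := by
  have a0 := s52 c
  try simp only [v0, v1, v12, v24, v25, v53, v177, v178, v179] at a0
  simp only [v0, v1, v12, v24, v25, v53, v177, v178, v179]
  (try push_cast at a0 ⊢)
  first | linear_combination -a0 | ring | grind

theorem s54 (c : Cx x1 x2) : v54 x1 x2 = v70 x1 x2 + v25 x1 x2 * v72 x1 x2 := by
  have a0 : (v31 x1 x2 + v69 x1 x2) * v31 x1 x2 = (v31 x1 x2 + v69 x1 x2) * (v69 x1 x2 + v25 x1 x2 * v66 x1 x2) := congrArg (fun z => (v31 x1 x2 + v69 x1 x2) * z) (s31 c)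
  try simp only [v0, v1, v12, v16, v24, v25, v29, v30, v31, v54, v68, v69, v70, v71, v72] at a0
  simp only [v0, v1, v12, v16, v24, v25, v29, v30, v31, v54, v68, v69, v70, v71, v72]
  (try push_cast at a0 ⊢)
  first | linear_combination a0 | ring | grind

theorem s56 (c : Cx x1 x2) : v56 x1 x2 = v73 x1 x2 + v25 x1 x2 * v74 x1 x2 := by
  have a1 := s54 c
  try simp only [v0, v1, v12, v24, v25, v55, v56, v73, v74] at a1
  simp only [v0, v1, v12, v24, v25, v55, v56, v73, v74]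
  (try push_cast at a1 ⊢)
  first | linear_combination -a1 | ring | grind

theorem s57 (c : Cx x1 x2) : v57 x1 x2 = v76 x1 x2 + v25 x1 x2 * v77 x1 x2 := by
  have a0 : (v32 x1 x2 + v75 x1 x2) * v32 x1 x2 = (v32 x1 x2 + v75 x1 x2) * (v75 x1 x2 + v25 x1 x2 * v5 x1 x2) := congrArg (fun z => (v32 x1 x2 + v75 x1 x2) * z) (s32 c)
  try simp only [v0, v1, v5, v12, v24, v25, v32, v57, v75, v76, v77] at a0
  simp only [v0, v1, v5, v12, v24, v25, v32, v57, v75, v76, v77]
  (try push_cast at a0 ⊢)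
  first | linear_combination a0 | ring | grind

theorem s58 (c : Cx x1 x2) : v58 x1 x2 = v78 x1 x2 + v25 x1 x2 * v79 x1 x2 := by
  have a0 := s56 c
  have a1 := s57 c
  try simp only [v0, v1, v12, v24, v25, v32, v55, v56, v58, v73, v74, v75, v77, v78, v79] at a0
  try simp only [v0, v1, v12, v24, v25, v32, v55, v56, v58, v73, v74, v75, v77, v78, v79] at a1
  simp only [v0, v1, v12, v24, v25, v32, v55, v56, v58, v73, v74, v75, v77, v78, v79]
  (try push_cast at a0 a1 ⊢)
  first | linear_combination a0 - a1 | ring | grind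

theorem s81 (c : Cx x1 x2) : v81 x1 x2 = v93 x1 x2 + v25 x1 x2 * v94 x1 x2 := by
  have a1 := s57 c
  try simp only [v0, v1, v12, v24, v25, v32, v55, v75, v77, v81, v93, v94] at a1
  simp only [v0, v1, v12, v24, v25, v32, v55, v75, v77, v81, v93, v94]
  (try push_cast at a1 ⊢)
  first | linear_combination -a1 | ring | grind

theorem q82 (c : Cx x1 x2) : v93 x1 x2 = v83 x1 x2 ^ 2 := by
  have hc := c.hc
  have h3 := s3q x1 x2
  simp only [v0, v3, v10, v11, v12, v13, v18, v24, v55, v75, v76, v83, v93] at hc ⊢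
  push_cast at hc ⊢
  grind

theorem s82 (c : Cx x1 x2) : v82 x1 x2 = v83 x1 x2 + v25 x1 x2 * v98 x1 x2 := by
  have a0 := s81 c
  have e : 0 < Real.sqrt (v81 x1 x2) + v83 x1 x2 := by
    have e := c.p95
    simp only [v55, v81, v82, v83, v95] at e ⊢
    push_cast at e ⊢
    linarith
  have b := sl_sqrt a0 (q82 c) (le_of_lt c.p81) e
  clear a0
  try simp only [v0, v1, v12, v24, v25, v32, v55, v75, v77, v81, v82, v83, v93, v94, v95, v96, v97, v98] at b
  simp only [v0, v1, v12, v24, v25, v32, v55, v75, v77, v81, v82, v83, v93, v94, v95, v96, v97, v98]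
  (try push_cast at b ⊢)
  first | linear_combination b | ring | grind

theorem s85 (c : Cx x1 x2) : v85 x1 x2 = v99 x1 x2 + v25 x1 x2 * v98 x1 x2 := by
  have a0 := s82 c
  try simp only [v0, v1, v12, v24, v25, v83, v84, v85, v98, v99] at a0
  simp only [v0, v1, v12, v24, v25, v83, v84, v85, v98, v99]
  (try push_cast at a0 ⊢)
  first | linear_combination a0 | ring | grind

theorem s86 (c : Cx x1 x2) : v86 x1 x2 = v100 x1 x2 + v25 x1 x2 * v104 x1 x2 := by
  have a0 : (v85 x1 x2) * v57 x1 x2 = (v85 x1 x2) * (v76 x1 x2 + v25 x1 x2 * v77 x1 x2) := congrArg (fun z => (v85 x1 x2) * z) (s57 c)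
  have a1 : (v76 x1 x2) * v85 x1 x2 = (v76 x1 x2) * (v99 x1 x2 + v25 x1 x2 * v98 x1 x2) := congrArg (fun z => (v76 x1 x2) * z) (s85 c)
  try simp only [v0, v1, v12, v24, v25, v32, v75, v77, v84, v85, v86, v98, v99, v100, v101, v102, v104] at a0
  try simp only [v0, v1, v12, v24, v25, v32, v75, v77, v84, v85, v86, v98, v99, v100, v101, v102, v104] at a1
  simp only [v0, v1, v12, v24, v25, v32, v75, v77, v84, v85, v86, v98, v99, v100, v101, v102, v104]
  (try push_cast at a0 a1 ⊢)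
  first | linear_combination a0 + a1 | ring | grind

theorem s87 (c : Cx x1 x2) : v87 x1 x2 = v105 x1 x2 + v25 x1 x2 * v106 x1 x2 := by
  have a1 := s32 c
  try simp only [v0, v1, v2, v3, v5, v12, v24, v25, v32, v75, v87, v105, v106] at a1
  simp only [v0, v1, v2, v3, v5, v12, v24, v25, v32, v75, v87, v105, v106]
  (try push_cast at a1 ⊢)
  first | linear_combination -a1 | ring | grind

theorem s88 (c : Cx x1 x2) : v88 x1 x2 = v107 x1 x2 + v25 x1 x2 * v5 x1 x2 := by
  have a1 := s32 c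
  try simp only [v0, v1, v2, v3, v5, v12, v24, v25, v32, v75, v88, v107] at a1
  simp only [v0, v1, v2, v3, v5, v12, v24, v25, v32, v75, v88, v107]
  (try push_cast at a1 ⊢)
  first | linear_combination a1 | ring | grind

theorem s89 (c : Cx x1 x2) : v89 x1 x2 = v108 x1 x2 + v25 x1 x2 * v110 x1 x2 := by
  have a0 : (v88 x1 x2) * v87 x1 x2 = (v88 x1 x2) * (v105 x1 x2 + v25 x1 x2 * v106 x1 x2) := congrArg (fun z => (v88 x1 x2) * z) (s87 c)
  have a1 : (v105 x1 x2) * v88 x1 x2 = (v105 x1 x2) * (v107 x1 x2 + v25 x1 x2 * v5 x1 x2) := congrArg (fun z => (v105 x1 x2) * z) (s88 c)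
  try simp only [v0, v1, v2, v3, v5, v12, v24, v25, v32, v75, v87, v88, v89, v105, v106, v107, v108, v110] at a0
  try simp only [v0, v1, v2, v3, v5, v12, v24, v25, v32, v75, v87, v88, v89, v105, v106, v107, v108, v110] at a1
  simp only [v0, v1, v2, v3, v5, v12, v24, v25, v32, v75, v87, v88, v89, v105, v106, v107, v108, v110]
  (try push_cast at a0 a1 ⊢)
  first | linear_combination a0 + a1 | ring | grind

theorem s90 (c : Cx x1 x2) : v90 x1 x2 = v111 x1 x2 + v25 x1 x2 * v114 x1 x2 := by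
  have a0 := s89 c
  have b := sl_inv a0 (c.p89).ne' (c.p108).ne'
  clear a0
  try simp only [v0, v1, v2, v3, v12, v24, v25, v32, v75, v88, v90, v105, v110, v111, v112, v113, v114] at b
  simp only [v0, v1, v2, v3, v12, v24, v25, v32, v75, v88, v90, v105, v110, v111, v112, v113, v114]
  (try push_cast at b ⊢)
  first | linear_combination b | ring | grind

theorem s91 (c : Cx x1 x2) : v91 x1 x2 = v115 x1 x2 + v25 x1 x2 * v119 x1 x2 := by
  have a0 : (v90 x1 x2) * v86 x1 x2 = (v90 x1 x2) * (v100 x1 x2 + v25 x1 x2 * v104 x1 x2) := congrArg (fun z => (v90 x1 x2) * z) (s86 c)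
  have a1 : (v100 x1 x2) * v90 x1 x2 = (v100 x1 x2) * (v111 x1 x2 + v25 x1 x2 * v114 x1 x2) := congrArg (fun z => (v100 x1 x2) * z) (s90 c)
  try simp only [v0, v1, v12, v24, v25, v91, v104, v114, v115, v116, v117, v119] at a0
  try simp only [v0, v1, v12, v24, v25, v91, v104, v114, v115, v116, v117, v119] at a1
  simp only [v0, v1, v12, v24, v25, v91, v104, v114, v115, v116, v117, v119]
  (try push_cast at a0 a1 ⊢)
  first | linear_combination a0 + a1 | ring | grind

theorem s92 (c : Cx x1 x2) : v92 x1 x2 = v120 x1 x2 + v25 x1 x2 * v121 x1 x2 := by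
  have a0 := s91 c
  try simp only [v0, v1, v12, v24, v25, v92, v119, v120, v121] at a0
  simp only [v0, v1, v12, v24, v25, v92, v119, v120, v121]
  (try push_cast at a0 ⊢)
  first | linear_combination -a0 | ring | grind

theorem s135 (c : Cx x1 x2) : v135 x1 x2 = v142 x1 x2 + v25 x1 x2 * v7 x1 x2 := by
  have a1 : (v7 x1 x2) * v1 x1 x2 = (v7 x1 x2) * (v24 x1 x2 + v25 x1 x2 * v5 x1 x2) := congrArg (fun z => (v7 x1 x2) * z) (s1 c)
  try simp only [v0, v1, v5, v12, v24, v25, v135, v142] at a1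
  simp only [v0, v1, v5, v12, v24, v25, v135, v142]
  (try push_cast at a1 ⊢)
  first | linear_combination a1 | ring | grind

theorem s136 (c : Cx x1 x2) : v136 x1 x2 = v143 x1 x2 + v25 x1 x2 * v145 x1 x2 := by
  have a0 : (v0 x1 x2) * v28 x1 x2 = (v0 x1 x2) * (v29 x1 x2 + v25 x1 x2 * v67 x1 x2) := congrArg (fun z => (v0 x1 x2) * z) (s28 c)
  try simp only [v0, v1, v12, v16, v24, v25, v29, v67, v136, v143, v144, v145] at a0
  simp only [v0, v1, v12, v16, v24, v25, v29, v67, v136, v143, v144, v145]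
  (try push_cast at a0 ⊢)
  first | linear_combination a0 | ring | grind

theorem s138 (c : Cx x1 x2) : v138 x1 x2 = v146 x1 x2 + v25 x1 x2 * v147 x1 x2 := by
  have a0 := s135 c
  have a1 := s136 c
  try simp only [v0, v1, v12, v24, v25, v138, v145, v146, v147] at a0
  try simp only [v0, v1, v12, v24, v25, v138, v145, v146, v147] at a1
  simp only [v0, v1, v12, v24, v25, v138, v145, v146, v147]
  (try push_cast at a0 a1 ⊢)
  first | linear_combination a0 + a1 | ring | grind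

theorem s140 (c : Cx x1 x2) : v140 x1 x2 = v148 x1 x2 + v25 x1 x2 * v149 x1 x2 := by
  have a0 : (v139 x1 x2) * v138 x1 x2 = (v139 x1 x2) * (v146 x1 x2 + v25 x1 x2 * v147 x1 x2) := congrArg (fun z => (v139 x1 x2) * z) (s138 c)
  try simp only [v0, v1, v12, v24, v25, v138, v140, v146, v147, v148, v149] at a0
  simp only [v0, v1, v12, v24, v25, v138, v140, v146, v147, v148, v149]
  (try push_cast at a0 ⊢)
  first | linear_combination a0 | ring | grind

theorem s141 (c : Cx x1 x2) : v141 x1 x2 = v150 x1 x2 + v25 x1 x2 * v149 x1 x2 := by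
  have a0 := s140 c
  try simp only [v0, v1, v9, v12, v24, v25, v141, v150] at a0
  simp only [v0, v1, v9, v12, v24, v25, v141, v150]
  (try push_cast at a0 ⊢)
  first | linear_combination a0 | ring | grind

theorem s152 (c : Cx x1 x2) : v152 x1 x2 = v181 x1 x2 + v25 x1 x2 * v5 x1 x2 := by
  have a0 := s1 c
  try simp only [v0, v1, v2, v3, v5, v12, v24, v25, v152, v181] at a0
  simp only [v0, v1, v2, v3, v5, v12, v24, v25, v152, v181]
  (try push_cast at a0 ⊢)
  first | linear_combination a0 | ring | grind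

theorem bD (c : Cx x1 x2) : v78 x1 x2 = 0 := by
  have hc := c.hc
  have h3 := s3q x1 x2
  simp only [v0, v3, v10, v12, v14, v16, v24, v29, v55, v68, v69, v70, v73, v75, v76, v78] at hc ⊢
  push_cast at hc ⊢
  grind

theorem sD (c : Cx x1 x2) : v58 x1 x2 = v25 x1 x2 * v79 x1 x2 := by
  have h := s58 c
  rw [bD c, zero_add] at h
  exact h

theorem s129 (c : Cx x1 x2) : v129 x1 x2 = v115 x1 x2 + v25 x1 x2 * v134 x1 x2 := by
  have hA := s92 c
  have hd := sD c
  have hs := c.p123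
  have hc : v82 x1 x2 ^ 2 = v81 x1 x2 := by
    rw [v82]; exact Real.sq_sqrt (le_of_lt c.p81)
  have hx : v82 x1 x2 - v80 x1 x2 = v58 x1 x2 * (v123 x1 x2)⁻¹ := by
    have g : v82 x1 x2 ^ 2 - v80 x1 x2 ^ 2 = v58 x1 x2 := by
      rw [hc]; simp only [v0, v1, v30, v31, v32, v54, v55, v56, v57, v58, v80, v81, v123]; push_cast; ring
    have g3 : v123 x1 x2 = v82 x1 x2 + v80 x1 x2 := by
      simp only [v0, v1, v30, v31, v32, v54, v55, v56, v57, v58, v80, v81, v123]; try push_cast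
      try ring
    have g2 : 0 < v82 x1 x2 + v80 x1 x2 := by rw [← g3]; exact hs
    rw [g3]; exact diff_of_sq g g2
  have hy : v122 x1 x2 * (v82 x1 x2 - v80 x1 x2) = v122 x1 x2 * (v58 x1 x2 * (v123 x1 x2)⁻¹) := congrArg (fun z => v122 x1 x2 * z) hx
  have hK : v122 x1 x2 * (v123 x1 x2)⁻¹ * v58 x1 x2 = v122 x1 x2 * (v123 x1 x2)⁻¹ * (v25 x1 x2 * v79 x1 x2) := congrArg (fun z => v122 x1 x2 * (v123 x1 x2)⁻¹ * z) hd
  try simp only [v0, v1, v12, v24, v25, v32, v55, v56, v58, v74, v75, v77, v79, v80, v92, v120, v121, v123, v126, v127, v129, v130, v131, v132, v134] at hA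
  try simp only [v0, v1, v12, v24, v25, v32, v55, v56, v58, v74, v75, v77, v79, v80, v92, v120, v121, v123, v126, v127, v129, v130, v131, v132, v134] at hy
  try simp only [v0, v1, v12, v24, v25, v32, v55, v56, v58, v74, v75, v77, v79, v80, v92, v120, v121, v123, v126, v127, v129, v130, v131, v132, v134] at hK
  simp only [v0, v1, v12, v24, v25, v32, v55, v56, v58, v74, v75, v77, v79, v80, v92, v120, v121, v123, v126, v127, v129, v130, v131, v132, v134]
  (try push_cast at hA hy hK ⊢)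
  first | linear_combination -(hA - hy - hK) | grind

theorem bE (c : Cx x1 x2) : v150 x1 x2 = 0 := by
  have hc := c.hc
  have h3 := s3q x1 x2
  have g0 : v2 x1 x2 ≠ 0 := s3ne x1 x2
  simp only [v0, v3, v9, v10, v12, v14, v16, v24, v29, v139, v142, v143, v146, v148, v150] at hc ⊢
  push_cast at hc ⊢
  grind

theorem hE (c : Cx x1 x2) : v141 x1 x2 = v25 x1 x2 * v149 x1 x2 := by
  have h := s141 c
  rw [bE c, zero_add] at h
  exact h

theorem bS (c : Cx x1 x2) : v178 x1 x2 - v42 x1 x2 - v115 x1 x2 = 0 := by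
  have hc := c.hc
  have h3 := s3q x1 x2
  have g0 := (c.p40).ne'
  have g1 := (c.p108).ne'
  have g2 := (c.p167).ne'
  simp only [v0, v3, v5, v10, v11, v12, v13, v14, v16, v18, v24, v29, v33, v34, v35, v36, v37, v38, v39, v40, v41, v42, v75, v76, v84, v99, v100, v105, v107, v108, v111, v115, v153, v156, v157, v158, v160, v165, v166, v167, v169, v173, v178] at hc g0 g1 g2 ⊢
  push_cast at hc g0 g1 g2 ⊢
  grind

theorem hS (c : Cx x1 x2) : v53 x1 x2 - v42 x1 x2 - v129 x1 x2 = v25 x1 x2 * v180 x1 x2 := by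
  have a3 := s53 c
  have a2 := s129 c
  have b := bS c
  try simp only [v0, v1, v12, v24, v25, v53, v121, v129, v134, v178, v179, v180] at a3
  try simp only [v0, v1, v12, v24, v25, v53, v121, v129, v134, v178, v179, v180] at a2
  try simp only [v0, v1, v12, v24, v25, v53, v121, v129, v134, v178, v179, v180] at b
  try simp only [v0, v1, v12, v24, v25, v53, v121, v129, v134, v178, v179, v180]
  (try push_cast at a3 a2 b ⊢)
  first | linear_combination a3 - a2 + b | grind

theorem bC (c : Cx x1 x2) : v151 x1 x2 * v178 x1 x2 - v181 x1 x2 * v42 x1 x2 = 0 := by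
  have hc := c.hc
  have h3 := s3q x1 x2
  have g0 := (c.p40).ne'
  have g1 := (c.p167).ne'
  simp only [v0, v3, v5, v10, v12, v14, v16, v24, v29, v33, v34, v35, v36, v37, v38, v39, v40, v41, v42, v151, v153, v156, v157, v158, v160, v165, v166, v167, v169, v173, v178, v181] at hc g0 g1 ⊢
  push_cast at hc g0 g1 ⊢
  grind

theorem hC (c : Cx x1 x2) : v151 x1 x2 * v53 x1 x2 - v152 x1 x2 * v42 x1 x2 = v25 x1 x2 * v183 x1 x2 := by
  have a2 : v151 x1 x2 * v53 x1 x2 = v151 x1 x2 * (v178 x1 x2 + v25 x1 x2 * v179 x1 x2) := congrArg (fun z => v151 x1 x2 * z) (s53 c)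
  have a3 : v42 x1 x2 * v152 x1 x2 = v42 x1 x2 * (v181 x1 x2 + v25 x1 x2 * v5 x1 x2) := congrArg (fun z => v42 x1 x2 * z) (s152 c)
  have b := bC c
  try simp only [v0, v1, v2, v3, v5, v12, v24, v25, v53, v151, v152, v178, v179, v181, v182, v183] at a2
  try simp only [v0, v1, v2, v3, v5, v12, v24, v25, v53, v151, v152, v178, v179, v181, v182, v183] at a3
  try simp only [v0, v1, v2, v3, v5, v12, v24, v25, v53, v151, v152, v178, v179, v181, v182, v183] at b
  simp only [v0, v1, v2, v3, v5, v12, v24, v25, v53, v151, v152, v178, v179, v181, v182, v183]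
  (try push_cast at a2 a3 b ⊢)
  first | linear_combination a2 - a3 + b | grind

theorem hT (x1 x2 : ℝ) : v152 x1 x2 = v151 x1 x2 + v32 x1 x2 := by
  simp only [v0, v1, v2, v3, v32, v151, v152]
  push_cast
  ring

theorem hG (c : Cx x1 x2) : (-v152 x1 x2) * (-v129 x1 x2) - v32 x1 x2 * v53 x1 x2 = v25 x1 x2 * v187 x1 x2 := by
  have b := hC c
  have m0 : v152 x1 x2 * (v53 x1 x2 - v42 x1 x2 - v129 x1 x2) = v152 x1 x2 * (v25 x1 x2 * v180 x1 x2) := congrArg (fun z => v152 x1 x2 * z) (hS c)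
  have m1 : v53 x1 x2 * v152 x1 x2 = v53 x1 x2 * (v151 x1 x2 + v32 x1 x2) := congrArg (fun z => v53 x1 x2 * z) (hT x1 x2)
  try simp only [v0, v1, v2, v3, v12, v24, v25, v32, v53, v121, v129, v134, v151, v152, v179, v180, v183, v186, v187] at b
  try simp only [v0, v1, v2, v3, v12, v24, v25, v32, v53, v121, v129, v134, v151, v152, v179, v180, v183, v186, v187] at m0
  try simp only [v0, v1, v2, v3, v12, v24, v25, v32, v53, v121, v129, v134, v151, v152, v179, v180, v183, v186, v187] at m1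
  try simp only [v0, v1, v2, v3, v12, v24, v25, v32, v53, v121, v129, v134, v151, v152, v179, v180, v183, v186, v187]
  (try push_cast at b m0 m1 ⊢)
  first | linear_combination b - m0 + m1 | grind

theorem core (c : Cx x1 x2) (hW : 0 ≤ v25 x1 x2) (hWQ : 0 ≤ v25 x1 x2 * v191 x1 x2) (h1 : 0 ≤ v32 x1 x2) (h2 : 0 ≤ (-v152 x1 x2)) (h3 : v32 x1 x2 + (-v152 x1 x2) ≤ Pool.Agent.StripNear.h0) :
    0 ≤ starn_v (v141 x1 x2) (v32 x1 x2) ((-v152 x1 x2)) ((-v129 x1 x2)) (v53 x1 x2) (v42 x1 x2) := by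
  have hD : (-v129 x1 x2) + v53 x1 x2 - v42 x1 x2 = v25 x1 x2 * v180 x1 x2 := by
    have b := hS c
    linear_combination b
  have k := starn_ge hW h1 h2 h3 (hE c) hD (hG c)
  have f1 : (-v152 x1 x2) = v190 x1 x2 := by
    simp only [v0, v1, v2, v3, v32, v152, v190]
    try (push_cast; ring)
  refine le_trans hWQ (le_trans (le_of_eq ?_) k)
  rw [v191]
  rw [f1]

end Pool.Agent.Strip051.LB.ChB00V2_pm_101
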